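import Mathlib
import Pool.Agent.W5h78.AT.Crit

set_option autoImplicit false

/-!
MP_4e0dfc_co (helper78): Alon-Tarsi bases in the plane (n = 2), all primes, all fields.
-/

namespace Pool.Agent.Results.MP_4e0dfc_co.PlaneCriterion

open Pool.Agent.W5h78.AT Finset Polynomial

universe u

/-- the example: `(1,0)` and `(0,1)` both `p-2` times, `(1,1)` and `(1,-1)` -/
def ex (p : ℕ) (F : Type u) [Field F] : Fin (p - 1) × Fin 2 → Fin 2 → F := fun x =>
  if x.2 = 0 then (if x.1.val = 0 then ![1, 1] else ![1, 0])
  else (if x.1.val = 0 then ![1, -1] else ![0, 1])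

open Classical in
theorem sharp (p : ℕ) [hp : Fact p.Prime] (h2 : p ≠ 2) (F : Type u) [Field F] [CharP F p] :
    (∀ x, ex p F x ≠ 0) ∧
    (∀ x, p - 1 ≤ (Finset.univ.filter (fun y => ¬ Par (ex p F x) (ex p F y))).card) ∧
    ∀ f : Fin (p - 1) × Fin 2 → Fin (p - 1) × Fin 2, Function.Injective f →
      Matrix.permanent (Matrix.of (fun (r c : Fin (p - 1) × Fin 2) => ex p F (f c) r.2)) = 0 := by
  have hp2 : 2 ≤ p := hp.out.two_le
  have h20 : (2 : F) ≠ 0 := by
    intro h
    have h3 : ((2 : ℕ) : F) = 0 := by exact_mod_cast h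
    rw [CharP.cast_eq_zero_iff F p] at h3
    exact h2 ((Nat.prime_dvd_prime_iff_eq hp.out Nat.prime_two).1 h3)
  refine ⟨?_, ?_, ?_⟩
  · rintro ⟨i, k⟩ h
    have e0 := congrFun h 0
    have e1 := congrFun h 1
    unfold ex at e0 e1
    by_cases hk : k = 0
    · by_cases hi : i.val = 0 <;> simp [hk, hi] at e0
    · by_cases hi : i.val = 0
      · simp [hk, hi] at e0
      · simp [hk, hi] at e1
  · rintro ⟨i, k⟩
    have hcard : (Finset.univ : Finset (Fin (p - 1))).card = p - 1 := by simp
    refine le_trans (le_of_eq hcard.symm) ?_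
    refine Finset.card_le_card_of_injOn (fun j => (j, if k = 0 then 1 else 0)) ?_ ?_
    · intro j _
      simp only [coe_filter, mem_univ, true_and, Set.mem_ofPred_eq]
      unfold Par ex
      by_cases hk : k = 0
      · by_cases hi : i.val = 0 <;> by_cases hj : j.val = 0
        · simp only [hk, hi, hj, if_true, Fin.isValue, one_ne_zero, if_false, Matrix.cons_val_zero,
            Matrix.cons_val_one]
          intro h
          apply h20
          linear_combination -h
        · simp [hk, hi, hj]
        · simp [hk, hi, hj]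
        · simp [hk, hi, hj]
      · by_cases hi : i.val = 0 <;> by_cases hj : j.val = 0
        · simp only [hk, hi, hj, if_true, Fin.isValue, if_false, Matrix.cons_val_zero,
            Matrix.cons_val_one]
          intro h
          apply h20
          linear_combination h
        · simp [hk, hi, hj]
        · simp [hk, hi, hj]
        · simp [hk, hi, hj]
    · intro a _ b _ h
      exact congrArg Prod.fst h
  · intro f hf
    rw [perm_eq (p - 1) (fun c => ex p F (f c))]
    refine mul_eq_zero_of_right _ ?_
    have h3 := lp_comp (ex p F) f hf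
    have h4 : Finset.univ.image f = Finset.univ :=
      Finset.image_univ_of_surjective (Finite.surjective_of_injective hf)
    rw [h3, h4]
    obtain ⟨m, hm⟩ : ∃ m, p - 1 = m + 2 := ⟨p - 3, by
      have := hp.out.two_le
      have : p ≠ 2 := h2
      omega⟩
    have h5 : lp (ex p F) Finset.univ = (1 - X ^ 2) * X ^ (p - 2) := by
      rw [Pool.Agent.W5h78.AT.lp, Fintype.prod_prod_type_right, Fin.prod_univ_two]
      have a1 : ∀ i : Fin (p - 1), (C (ex p F (i, 0) 0) + C (ex p F (i, 0) 1) * X : F[X]) =
          if i = ⟨0, by omega⟩ then 1 + X else 1 := by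
        intro i
        have hi : (i = ⟨0, by omega⟩) ↔ i.val = 0 := by rw [Fin.ext_iff]
        unfold ex
        by_cases h : i.val = 0
        · rw [if_pos (hi.2 h)]; simp [h]
        · rw [if_neg (fun h' => h (hi.1 h'))]; simp [h]
      have a2 : ∀ i : Fin (p - 1), (C (ex p F (i, 1) 0) + C (ex p F (i, 1) 1) * X : F[X]) =
          if i = ⟨0, by omega⟩ then 1 - X else X := by
        intro i
        have hi : (i = ⟨0, by omega⟩) ↔ i.val = 0 := by rw [Fin.ext_iff]
        unfold ex
        by_cases h : i.val = 0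
        · rw [if_pos (hi.2 h)]; simp [h, sub_eq_add_neg]
        · rw [if_neg (fun h' => h (hi.1 h'))]; simp [h]
      simp only [a1, a2]
      rw [Finset.prod_ite_eq' Finset.univ, if_pos (mem_univ _)]
      rw [← Finset.mul_prod_erase Finset.univ _ (mem_univ (⟨0, by omega⟩ : Fin (p - 1))), if_pos rfl]
      have a3 : ∏ x ∈ Finset.univ.erase (⟨0, by omega⟩ : Fin (p - 1)),
          (if x = ⟨0, by omega⟩ then (1 - X : F[X]) else X) = X ^ (p - 2) := by
        rw [Finset.prod_congr rfl (g := fun _ => X) fun x hx => if_neg (Finset.ne_of_mem_erase hx)]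
        rw [Finset.prod_const, card_erase_of_mem (mem_univ _), card_univ, Fintype.card_fin]
        rfl
      rw [a3]
      ring
    rw [h5]
    have h6 : p - 1 = 1 + (p - 2) := by omega
    rw [h6, coeff_mul_X_pow]
    simp [coeff_one, coeff_X_pow]

/-- RESULT. Let `p` be a prime and `F` a field of characteristic `p`.
(1) If at least `2p-1` of the vectors `v x` of the plane are not zero, then some `2(p-1)` of them (distinct
indices) form an Alon-Tarsi basis if and only if for every line spanned by one of them at least `p-1`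
vectors lie outside the line.
(2) `2p-1` cannot be replaced by `2p-2` in (1) if `p` is odd. -/
theorem result (p : ℕ) (hp : p.Prime) (F : Type u) [Field F] [CharP F p] :
    (∀ (X : Type) [Fintype X] (v : X → Fin 2 → F), 2 * p - 1 ≤ Nat.card {x : X // v x ≠ 0} →
      ((∃ f : Fin (p - 1) × Fin 2 → X, Function.Injective f ∧
        Matrix.permanent (Matrix.of (fun (r c : Fin (p - 1) × Fin 2) => v (f c) r.2)) ≠ 0) ↔
      ∀ x, v x ≠ 0 → p - 1 ≤ Nat.card {y : X // v x 0 * v y 1 ≠ v x 1 * v y 0})) ∧
    (p ≠ 2 → ∃ v : Fin (2 * p - 2) → Fin 2 → F, (∀ x, v x ≠ 0) ∧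
      (∀ x, p - 1 ≤ Nat.card {y : Fin (2 * p - 2) // v x 0 * v y 1 ≠ v x 1 * v y 0}) ∧
      ∀ f : Fin (p - 1) × Fin 2 → Fin (2 * p - 2), Function.Injective f →
        Matrix.permanent (Matrix.of (fun (r c : Fin (p - 1) × Fin 2) => v (f c) r.2)) = 0) := by
  classical
  have : Fact p.Prime := ⟨hp⟩
  refine ⟨?_, ?_⟩
  · intro X _ v hX
    rw [Nat.card_eq_fintype_card, Fintype.card_subtype] at hX
    have h := crit p v hX
    refine h.trans (forall_congr' fun x => imp_congr_right fun _ => ?_)
    rw [Nat.card_eq_fintype_card, Fintype.card_subtype]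
    rfl
  · intro h2
    obtain ⟨a1, a2, a3⟩ := sharp p h2 F
    have hc : Fintype.card (Fin (2 * p - 2)) = Fintype.card (Fin (p - 1) × Fin 2) := by
      simp; omega
    let e : Fin (2 * p - 2) ≃ Fin (p - 1) × Fin 2 := Fintype.equivOfCardEq hc
    refine ⟨fun x => ex p F (e x), fun x => a1 _, ?_, ?_⟩
    · intro x
      refine (a2 (e x)).trans (le_of_eq ?_)
      rw [Nat.card_eq_fintype_card, Fintype.card_subtype]
      symm
      refine Finset.card_bij (fun y _ => e y) ?_ ?_ ?_
      · intro y hy
        rw [mem_filter] at hy ⊢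
        exact ⟨mem_univ _, hy.2⟩
      · intro a _ b _ h; exact e.injective h
      · intro y hy
        rw [mem_filter] at hy
        refine ⟨e.symm y, ?_, e.apply_symm_apply y⟩
        rw [mem_filter]
        refine ⟨mem_univ _, ?_⟩
        have h7 : e (e.symm y) = y := e.apply_symm_apply y
        show ex p F (e x) 0 * ex p F (e (e.symm y)) 1 ≠ ex p F (e x) 1 * ex p F (e (e.symm y)) 0
        rw [h7]
        exact hy.2
    · intro f hf
      exact a3 (fun c => e (f c)) (e.injective.comp hf)

end Pool.Agent.Results.MP_4e0dfc_co.PlaneCriterion
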