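import Mathlib
import Pool.Agent.W5h21.AT.Change

set_option autoImplicit false

/-!
# The Alon-Tarsi basis conjecture for `n = 2` and for flags with steps of dimension two

Let `p` be a prime, `F` a field of characteristic `p` and `B_1, ..., B_p` invertible `n × n`
matrices over `F`.

(1) If `n ≤ 2` then some `(p - 1) n` of the columns of `[B_1 ... B_p]` form an Alon-Tarsi basis, and
one can forbid an arbitrary column.

(2) The same holds for every `n` if the matrices, after a common change of basis `P` and after
reordering the columns of each of them, are block upper triangular with common blocks of size at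
most two (so the columns of each `B_j` are a basis adapted to one and the same flag of subspaces of
`F ^ n`, whose steps have dimension one or two); one can forbid one column in each block.

Proof of (1).  Let `G` be the product of `2 p - 1` of the linear forms `a_j x + b_j y` given by the
columns, no `p + 1` of which are proportional. Suppose that for all `j` the coefficient of
`x ^ (p - 1) y ^ (p - 1)` in `G / ℓ_j` is zero. Then `G = A x ^ p + B y ^ p`, where `A` and `B`
have degree `p - 1` and are divisible by each `ℓ_j`. As the derivatives of `x ^ p` and `y ^ p`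
vanish, it follows that `G` divides the Wronskian of `A` and `B`, which has smaller degree. So the
Wronskian is zero, `A = α H` and `B = β H` with constants `α`, `β`, and
`G = H (α x ^ p + β y ^ p)`. A root of the second factor, which has multiplicity `p`, is also a root
of `H`, and so it has multiplicity at least `p + 1` in `G`.
-/

namespace Pool.Agent.Results.MP_4e0dfc_co.StepsOfDimensionTwo

open Finset

universe u

/-- Outside the set `D` of columns, the matrix `[B_1 ... B_p]` has `(p - 1) n` different columns
(`(j, c)` is the column `c` of `B j`) which form an Alon-Tarsi basis: the permanent of the square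
matrix formed by `p - 1` copies, one above the other, of the chosen `n × (p - 1) n` matrix is not
zero. For `D = ∅` this is the conclusion of the frozen statement. -/
def ContainsATBasis {F : Type u} [Field F] (p n : ℕ) (B : Fin p → Matrix (Fin n) (Fin n) F)
    (D : Finset (Fin p × Fin n)) : Prop :=
  ∃ f : Fin (p - 1) × Fin n → Fin p × Fin n, Function.Injective f ∧ (∀ c, f c ∉ D) ∧
    Matrix.permanent
      (Matrix.of (fun (r c : Fin (p - 1) × Fin n) => B (f c).1 r.2 (f c).2)) ≠ 0

/-- **The Alon-Tarsi basis conjecture for `n ≤ 2`, and for bases adapted to a common flag whose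
steps have dimension at most two.** -/
theorem result (p : ℕ) (hp : p.Prime) (F : Type u) [Field F] [CharP F p] (n : ℕ)
    (B : Fin p → Matrix (Fin n) (Fin n) F) (hB : ∀ j, (B j).det ≠ 0) :
    (n ≤ 2 → ∀ D : Finset (Fin p × Fin n), D.card ≤ 1 → ContainsATBasis p n B D) ∧
    (∀ (P : Matrix (Fin n) (Fin n) F) (σ : Fin p → Equiv.Perm (Fin n)) (blk : Fin n → ℕ),
      P.det ≠ 0 → (∀ k, (univ.filter (fun i => blk i = k)).card ≤ 2) →
      (∀ j, ((P * B j).submatrix id (σ j)).BlockTriangular blk) →
      ∀ D : Finset (Fin p × Fin n),
        (∀ k, (D.filter (fun x => blk ((σ x.1).symm x.2) = k)).card ≤ 1) →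
        ContainsATBasis p n B D) := by
  have : Fact p.Prime := ⟨hp⟩
  have h2 : ∀ (P : Matrix (Fin n) (Fin n) F) (σ : Fin p → Equiv.Perm (Fin n)) (blk : Fin n → ℕ),
      P.det ≠ 0 → (∀ k, (univ.filter (fun i => blk i = k)).card ≤ 2) →
      (∀ j, ((P * B j).submatrix id (σ j)).BlockTriangular blk) →
      ∀ D : Finset (Fin p × Fin n),
        (∀ k, (D.filter (fun x => blk ((σ x.1).symm x.2) = k)).card ≤ 1) →
        ContainsATBasis p n B D :=
    fun P σ blk hP hblk hT D hD =>
      Pool.Agent.W5h21.AT.flags p n blk hblk B hB P hP σ hT D hD
  refine ⟨fun hn D hD => h2 1 (fun _ => 1) (fun _ => 0) (by simp) (fun k => ?_)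
    (fun j i i' h => absurd h (lt_irrefl _)) D (fun k => ?_), h2⟩
  · refine (Finset.card_filter_le _ _).trans ?_
    rw [Finset.card_univ, Fintype.card_fin]
    exact hn
  · exact (Finset.card_filter_le _ _).trans hD

end Pool.Agent.Results.MP_4e0dfc_co.StepsOfDimensionTwo
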